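import Pool.Agent.H14.BR.Stm
import Pool.Agent.H46.RF.WRD

/-! Crew BR, parts ZRL and OPH. -/

set_option autoImplicit false

namespace H19.BR

open ZFSet (pair)
open Pool.Agent.W868
open MeasureTheory H14.ES H46.RF H14.BR

theorem pair_mem_zr (s : ℕ → Bool) (k : ℕ) (y : ZFSet.{0}) :
    pair (nat k) y ∈ zr s ↔ y = bz (s k) := by
  rw [mem_zr]
  constructor
  · rintro ⟨j, h⟩
    obtain ⟨h1, h2⟩ := ZFSet.pair_inj.1 h
    obtain rfl := nat_injective h1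
    exact h2
  · rintro rfl
    exact ⟨k, rfl⟩

theorem ini_sub_zr (r s : ℕ → Bool) (n : ℕ) : ini r n ⊆ zr s ↔ ∀ i < n, r i = s i := by
  constructor
  · intro h i hi
    have h1 : pair (nat i) (bz (r i)) ∈ zr s := h ((pair_mem_ini _ _ _ _).2 ⟨hi, rfl⟩)
    exact bz_inj ((pair_mem_zr _ _ _).1 h1)
  · intro h z hz
    obtain ⟨k, hk, rfl⟩ := (mem_ini _ _ _).1 hz
    rw [h k hk]
    exact (pair_mem_zr _ _ _).2 rfl

theorem ini_sub_zr' (r s : ℕ → Bool) (n : ℕ) : ini r n ⊆ zr s ↔ ini r n = ini s n := by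
  rw [ini_sub_zr, ini_eq]
  exact ⟨fun h => ⟨rfl, h⟩, fun h => h.2⟩

theorem zr_inj : Function.Injective zr := by
  intro r s h
  funext n
  have h1 : pair (nat n) (bz (r n)) ∈ zr s := by
    rw [← h]
    exact (pair_mem_zr _ _ _).2 rfl
  exact bz_inj ((pair_mem_zr _ _ _).1 h1)

theorem isFunc_zr (r : ℕ → Bool) :
    ZFSet.IsFunc ZFSet.omega ({nat 0, nat 1} : ZFSet.{0}) (zr r) := by
  constructor
  · intro z hz
    obtain ⟨k, rfl⟩ := mem_zr.1 hz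
    exact ZFSet.mem_prod.2 ⟨_, mem_omega_iff.2 ⟨k, rfl⟩, _, (mem_two _).2 ⟨_, rfl⟩, rfl⟩
  · intro z hz
    obtain ⟨k, rfl⟩ := mem_omega_iff.1 hz
    exact ⟨bz (r k), (pair_mem_zr _ _ _).2 rfl, fun y hy => (pair_mem_zr _ _ _).1 hy⟩

theorem exists_zr (z : ZFSet.{0})
    (h : ZFSet.IsFunc ZFSet.omega ({nat 0, nat 1} : ZFSet.{0}) z) : ∃ r, z = zr r := by
  classical
  refine ⟨fun k => decide (pair (nat k) (nat 1) ∈ z), ?_⟩
  have key : ∀ k, pair (nat k) (bz (decide (pair (nat k) (nat 1) ∈ z))) ∈ z := by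
    intro k
    by_cases h1 : pair (nat k) (nat 1) ∈ z
    · simp [h1, bz]
    · obtain ⟨b, hb, hu⟩ := h.2 (nat k) (mem_omega_iff.2 ⟨k, rfl⟩)
      have hb' := (ZFSet.pair_mem_prod.1 (h.1 hb)).2
      obtain ⟨e, rfl⟩ := (mem_two _).1 hb'
      cases e
      · simpa [h1, bz] using hb
      · exact absurd (by simpa [bz] using hb) h1
  ext x
  rw [mem_zr]
  constructor
  · intro hx
    obtain ⟨a, ha, b, hb, rfl⟩ := ZFSet.mem_prod.1 (h.1 hx)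
    obtain ⟨k, rfl⟩ := mem_omega_iff.1 ha
    refine ⟨k, ?_⟩
    obtain ⟨b', hb', hu⟩ := h.2 (nat k) ha
    rw [hu b hx, ← hu _ (key k)]
  · rintro ⟨k, rfl⟩
    exact key k

/-- the set of the reals of `M` -/
theorem exists_Re {M : Set ZFSet.{0}} (hM : IsZF M) : ∃ Re ∈ M, ∀ x, x ∈ Re ↔ IsRealIn M x := by
  have hB := hM.base
  obtain ⟨Q, hQ, hQ'⟩ := hM.exists_pow (hM.prod_mem hM.infinity (two_mem hM))
  have h1 : Dfn M M fun w : Fin 1 → ZFSet.{0} =>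
      ZFSet.IsFunc ZFSet.omega ({nat 0, nat 1} : ZFSet.{0}) (w 0) :=
    hB.isFunc' (DfnF.const hM.infinity) (DfnF.const (two_mem hM)) (DfnF.proj (0 : Fin 1))
  refine ⟨_, hM.sep_mem (Q := fun z =>
    ZFSet.IsFunc ZFSet.omega ({nat 0, nat 1} : ZFSet.{0}) z) h1 hQ, fun z => ?_⟩
  rw [ZFSet.mem_sep]
  constructor
  · rintro ⟨h2, h⟩
    exact ⟨((hQ' _).1 h2).1, exists_zr z h⟩
  · rintro ⟨hz, r, rfl⟩
    exact ⟨(hQ' _).2 ⟨hz, (isFunc_zr r).1⟩, isFunc_zr r⟩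

theorem zrl : S_ZRL := by
  refine ⟨ini_sub_zr, zr_inj, fun M hM => ⟨exists_Re hM, ?_, ?_⟩⟩
  · intro s L hL hL'
    have h1 : ZFSet.sUnion L = zr s := by
      ext z
      rw [ZFSet.mem_sUnion, mem_zr]
      constructor
      · rintro ⟨y, hy, hz⟩
        obtain ⟨n, rfl⟩ := (hL' y).1 hy
        obtain ⟨k, -, rfl⟩ := (mem_ini _ _ _).1 hz
        exact ⟨k, rfl⟩
      · rintro ⟨n, rfl⟩
        exact ⟨ini s (n + 1), (hL' _).2 ⟨n + 1, rfl⟩,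
          (pair_mem_ini _ _ _ _).2 ⟨Nat.lt_succ_self n, rfl⟩⟩
    rw [← h1]
    exact hM.union L hL
  · intro s hs
    have hB := hM.base
    obtain ⟨Wd, hW, hW'⟩ := exists_Wd hM
    have h1 : Dfn M M fun w : Fin 1 → ZFSet.{0} => w 0 ⊆ zr s :=
      hB.subset' (DfnF.proj (0 : Fin 1)) (DfnF.const hs)
    refine ⟨_, hM.sep_mem (Q := fun z => z ⊆ zr s) h1 hW, fun z => ?_⟩
    rw [ZFSet.mem_sep, hW']
    constructor
    · rintro ⟨⟨r, n, rfl⟩, h⟩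
      exact ⟨n, (ini_sub_zr' _ _ _).1 h⟩
    · rintro ⟨n, rfl⟩
      exact ⟨⟨s, n, rfl⟩, (ini_sub_zr' _ _ _).2 rfl⟩

theorem oph : S_OPH := by
  intro M hM
  have hB := hM.base
  obtain ⟨Wd, hW, hW'⟩ := exists_Wd hM
  obtain ⟨Re, hRe, hRe'⟩ := exists_Re hM
  refine ⟨fun T => ZFSet.sep (fun x => ∀ z ∈ Wd, z ⊆ x → z ∈ T) Re, ?_, ?_⟩
  · refine hM.sep' (F := fun _ : Fin 1 → ZFSet.{0} => Re)
      (Q := fun x v => ∀ z ∈ Wd, z ⊆ x → z ∈ v 0) (DfnF.const hRe) ?_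
    apply hB.ball (DfnF.const hW)
    apply Dfn.imp
    · exact hB.subset' (DfnF.proj (0 : Fin 3)) (DfnF.proj (1 : Fin 3))
    · exact Dfn.mem (DfnF.proj (0 : Fin 3)) (DfnF.proj (2 : Fin 3))
  · intro T _ x
    rw [ZFSet.mem_sep, hRe']
    constructor
    · rintro ⟨⟨hx, s, rfl⟩, h⟩
      exact ⟨s, fun n => h _ ((hW' _).2 ⟨s, n, rfl⟩) ((ini_sub_zr' _ _ _).2 rfl), rfl, hx⟩
    · rintro ⟨s, hs, rfl, hx⟩
      refine ⟨⟨hx, s, rfl⟩, fun z hz hzx => ?_⟩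
      obtain ⟨r, n, rfl⟩ := (hW' _).1 hz
      rw [(ini_sub_zr' _ _ _).1 hzx]
      exact hs n

end H19.BR
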